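import Pool.Agent.H25.SI1

set_option autoImplicit false

namespace Pool.Agent.Results.MP_143e72_lc.NPC
open Pool.Agent.H11.PT Pool.Agent.H25.CB Pool.Agent.H25.SI Finset

/-- host and pattern, each given by its number of vertices and a list of edges -/
abbrev Inst := (ℕ × List (ℕ × ℕ)) × (ℕ × List (ℕ × ℕ))

def P5 : SimpleGraph (Fin 5) := gr 5 [(0, 1), (1, 2), (2, 3), (3, 4)]

def TwoP5 : SimpleGraph (Fin 10) :=
  gr 10 [(0, 1), (1, 2), (2, 3), (3, 4), (5, 6), (6, 7), (7, 8), (8, 9)]

/-- host and pattern are `F`-subgraph-free and the host contains the pattern as a subgraph -/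
def SI {k : ℕ} (F : SimpleGraph (Fin k)) (y : Inst) : Prop :=
  (F.Free (gr y.1.1 y.1.2) ∧ F.Free (gr y.2.1 y.2.2)) ∧
    (gr y.2.1 y.2.2).IsContained (gr y.1.1 y.1.2)

def sel (c a0 a1 a2 a3 : ℕ) : ℕ :=
  if c % 4 = 0 then a0 else if c % 4 = 1 then a1 else if c % 4 = 2 then a2 else a3

theorem sel4 (i a0 a1 a2 a3 : ℕ) : sel (4 * i) a0 a1 a2 a3 = a0 ∧ sel (4 * i + 1) a0 a1 a2 a3 = a1 ∧
    sel (4 * i + 2) a0 a1 a2 a3 = a2 ∧ sel (4 * i + 3) a0 a1 a2 a3 = a3 := by
  unfold sel; split_ifs <;> omega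

def I (t z : ℕ) : ℕ := if t ≤ z then 1 else 0

theorem pairs (N : ℕ) (x y z r s dH dG : ℕ → ℕ)
    (hG : ∀ i, dG (4 * i) = x i + 1 ∧ dG (4 * i + 1) = y i ∧ dG (4 * i + 2) = x i ∧
      dG (4 * i + 3) = z i)
    (hH : ∀ i, dH (4 * i) = x i ∧ dH (4 * i + 1) = y i ∧ dH (4 * i + 2) = r i ∧
      dH (4 * i + 3) = s i) (hz : ∀ i < N, y i ≤ z i)
    (rc : ∀ i < N, ∀ a < 4 * N, ∀ b < 4 * N, a ≠ b → a / 2 = b / 2 → dG a = x i → y i ≤ dG b →
      z i ≤ dG b) :
    (∃ g : ℕ → ℕ, (∀ c < 4 * N, g c < 4 * N ∧ dH c ≤ dG (g c)) ∧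
      (∀ c < 4 * N, ∀ b < 4 * N, g c = g b → c = b) ∧
        ∀ i < N, g (4 * i) / 2 = g (4 * i + 1) / 2) ↔
    ∃ b : ℕ → Bool, ∀ t, ∑ i ∈ range N, (I t (r i) + I t (s i)) ≤ ∑ i ∈ range N,
      if b i then I t (x i + 1) + I t (y i) else I t (x i) + I t (z i) := by
  constructor
  · rintro ⟨g, g1, g2, g3⟩
    refine ⟨fun i => decide (dG (g (4 * i)) = x i), fun t => ?_⟩
    have h1 : ∑ c ∈ range (4 * N), I t (dG (g c)) ≤ ∑ c ∈ range (4 * N), I t (dG c) := by
      rw [← sum_image (f := fun c => I t (dG c)) fun a ha b hb =>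
        g2 a (by simpa using ha) b (by simpa using hb)]
      refine sum_le_sum_of_subset fun c hc => ?_
      obtain ⟨a, ha, rfl⟩ := mem_image.1 hc
      exact mem_range.2 (g1 a (mem_range.1 ha)).1
    rw [sum4, sum4] at h1
    let rem : ℕ → ℕ := fun i =>
      if dG (g (4 * i)) = x i then I t (x i) + I t (z i) else I t (x i + 1) + I t (y i)
    refine Nat.le_of_add_le_add_left (a := ∑ i ∈ range N, rem i) ?_
    rw [← sum_add_distrib, ← sum_add_distrib]
    refine ((sum_le_sum fun i hi => ?_).trans h1).trans (sum_le_sum fun i _ => ?_)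
    · rw [mem_range] at hi
      have a0 := g1 (4 * i) (by omega)
      have a1 := g1 (4 * i + 1) (by omega)
      have a2 := g1 (4 * i + 2) (by omega)
      have a3 := g1 (4 * i + 3) (by omega)
      have := rc i hi _ a0.1 _ a1.1 (mt (g2 _ (by omega) _ (by omega)) (by omega)) (g3 i hi)
      have := hH i
      simp only [rem, I]
      split_ifs <;> omega
    · obtain ⟨a0, a1, a2, a3⟩ := hG i
      simp only [rem, a0, a1, a2, a3, decide_eq_true_eq]
      split_ifs <;> omega
  · rintro ⟨b, h⟩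
    let o : ℕ → ℕ := fun i => if b i then 2 else 0
    have ho : ∀ i, o i = 0 ∨ o i = 2 := fun i => by simp only [o]; split_ifs <;> simp
    let K : ℕ → ℕ := fun s => 4 * (s / 2) + (2 - o (s / 2)) + s % 2
    obtain ⟨π, p1, p2⟩ := hall (2 * N) (fun s => dH (4 * (s / 2) + 2 + s % 2)) (fun s => dG (K s))
      fun t => by
        rw [sum2, sum2]
        refine (sum_le_sum fun i _ => ?_).trans ((h t).trans (sum_le_sum fun i _ => ?_))
        · obtain ⟨a0, a1, a2, a3⟩ := hH i
          simp only [show 2 * i / 2 = i by omega, show (2 * i + 1) / 2 = i by omega,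
            show 2 * i % 2 = 0 by omega, show (2 * i + 1) % 2 = 1 by omega, add_zero, a2, a3, I,
            add_assoc, Nat.reduceAdd, le_refl]
        · obtain ⟨a0, a1, a2, a3⟩ := hG i
          simp only [show 2 * i / 2 = i by omega, show (2 * i + 1) / 2 = i by omega, K, o,
            show 2 * i % 2 = 0 by omega, show (2 * i + 1) % 2 = 1 by omega, add_zero]
          cases b i <;> simp [a0, a1, a2, a3, I, add_assoc]
    refine ⟨fun c => if c % 4 < 2 then 4 * (c / 4) + o (c / 4) + c % 2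
      else K (π (2 * (c / 4) + c % 2)), fun c hc => ?_, fun c hc d hd e => ?_, fun i _ => ?_⟩
    · have := ho (c / 4)
      dsimp only
      split_ifs with k
      · refine ⟨by omega, ?_⟩
        obtain ⟨a0, a1, a2, a3⟩ := hH (c / 4)
        obtain ⟨b0, b1, b2, b3⟩ := hG (c / 4)
        have := hz (c / 4) (by omega)
        rcases (by omega : c = 4 * (c / 4) ∧ c % 2 = 0 ∨ c = 4 * (c / 4) + 1 ∧ c % 2 = 1) with
          e | e <;> rcases ho (c / 4) with f | f <;> rw [e.2, f, ← congrArg dH e.1.symm] <;>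
          simp only [add_zero, add_assoc, Nat.reduceAdd] <;> omega
      · have := p1 (2 * (c / 4) + c % 2) (by omega)
        rw [show 4 * ((2 * (c / 4) + c % 2) / 2) + 2 + (2 * (c / 4) + c % 2) % 2 = c by omega] at this
        exact ⟨by simp only [K]; omega, this.2⟩
    · have := ho (c / 4)
      have := ho (d / 4)
      have := ho (π (2 * (c / 4) + c % 2) / 2)
      have := ho (π (2 * (d / 4) + d % 2) / 2)
      simp only [K] at e
      split_ifs at e
      · have k : c / 4 = d / 4 := by omega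
        rw [k] at e; omega
      · have k : c / 4 = π (2 * (d / 4) + d % 2) / 2 := by omega
        rw [← k] at e; omega
      · have k : d / 4 = π (2 * (c / 4) + c % 2) / 2 := by omega
        rw [← k] at e; omega
      · have := p2 (2 * (c / 4) + c % 2) (by omega) (2 * (d / 4) + d % 2) (by omega) (by omega)
        omega
    · have := ho i
      simp only [show 4 * i / 4 = i by omega, show (4 * i + 1) / 4 = i by omega]
      rw [if_pos (by omega), if_pos (by omega)]
      omega

abbrev J := ℕ × List (ℕ × ℕ) × ℕ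

def a (y : J) (v : ℕ) : ℕ := v * (y.2.1.length + 1)
def ed (y : J) (j : ℕ) : ℕ × ℕ := y.2.1.getD j (0, 0)
def X (y : J) (i : ℕ) : ℕ :=
  if i < y.1 then 2 * a y y.1 + 1 else 2 * (a y (ed y (i - y.1)).1 + (i - y.1) + 1)
def Y (y : J) (i : ℕ) : ℕ :=
  if i < y.1 then 2 * a y i + 1 else 2 * (a y (ed y (i - y.1)).2 + (i - y.1) + 1)
def Z (y : J) (i : ℕ) : ℕ := if i < y.1 then 2 * (a y i + y.2.1.length) + 1 else Y y i + 1
def R (y : J) (i : ℕ) : ℕ := if i < y.1 ∧ y.2.2 ≤ i then X y i else X y i + 1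
def S (y : J) (i : ℕ) : ℕ := if i < y.1 then Y y i else Y y i + 1
def dG (y : J) (c : ℕ) : ℕ := sel c (X y (c / 4) + 1) (Y y (c / 4)) (X y (c / 4)) (Z y (c / 4))
def dH (y : J) (c : ℕ) : ℕ := sel c (X y (c / 4)) (Y y (c / 4)) (R y (c / 4)) (S y (c / 4))
def red (y : J) : Inst := (mk (4 * (y.1 + y.2.1.length)) (4 * a y y.1 + 5) 2 (dG y),
  mk (4 * (y.1 + y.2.1.length)) (4 * a y y.1 + 5) 4 (dH y))

theorem a_lt (y : J) (v w : ℕ) : (v < w ∧ a y v + y.2.1.length + 1 ≤ a y w) ∨ (v = w ∧ a y v = a y w) ∨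
    (w < v ∧ a y w + y.2.1.length + 1 ≤ a y v) := by
  have : ∀ v w, v < w → a y v + y.2.1.length + 1 ≤ a y w := fun v w h => by
    have := Nat.mul_le_mul_right (y.2.1.length + 1) h
    rw [Nat.succ_mul] at this
    exact this
  rcases lt_trichotomy v w with h | rfl | h
  exacts [.inl ⟨h, this _ _ h⟩, .inr (.inl ⟨rfl, rfl⟩), .inr (.inr ⟨h, this _ _ h⟩)]

theorem ed_mem (y : J) (j : ℕ) (h : j < y.2.1.length) : ed y j ∈ y.2.1 := by
  unfold ed
  rw [List.getD_eq_getElem _ _ h]
  exact List.getElem_mem h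

theorem core (y : J) (hy : ISV y) : IS y ↔ ∃ b : ℕ → Bool, ∀ t,
    ∑ i ∈ range (y.1 + y.2.1.length), (I t (R y i) + I t (S y i)) ≤
      ∑ i ∈ range (y.1 + y.2.1.length), if b i then I t (X y i + 1) + I t (Y y i)
        else I t (X y i) + I t (Z y i) := by
  have he : ∀ j < y.2.1.length, a y (ed y j).1 + y.2.1.length + 1 ≤ a y y.1 ∧
      a y (ed y j).2 + y.2.1.length + 1 ≤ a y y.1 := fun j hj => by
    have := hy.2 _ (ed_mem y j hj)
    have := a_lt y (ed y j).1 y.1
    have := a_lt y (ed y j).2 y.1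
    omega
  have top : ∀ b : ℕ → Bool, (∑ i ∈ range (y.1 + y.2.1.length),
      (I (2 * a y y.1 + 2) (R y i) + I (2 * a y y.1 + 2) (S y i)) = y.2.2) ∧
      (∑ i ∈ range (y.1 + y.2.1.length), if b i then I (2 * a y y.1 + 2) (X y i + 1) +
        I (2 * a y y.1 + 2) (Y y i) else I (2 * a y y.1 + 2) (X y i) + I (2 * a y y.1 + 2) (Z y i))
        = #((range y.1).filter fun i => b i = true) := fun b => by
    have : y.2.2 = #((range y.1).filter fun i => i < y.2.2) := by
      rw [show ((range y.1).filter fun i => i < y.2.2) = range y.2.2 from Finset.ext fun i => by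
        have := hy.1
        simp only [mem_filter, mem_range]; omega, card_range]
    rw [this, card_filter, card_filter, sum_range_add, sum_range_add]
    constructor <;> rw [sum_eq_zero (s := range y.2.1.length), add_zero] <;>
      first | refine sum_congr rfl fun i hi => ?_ | intro i hi
    all_goals
      rw [mem_range] at hi
      have := he i
      have := a_lt y i y.1
      simp only [R, S, X, Y, Z, I, Nat.add_sub_cancel_left]
      split_ifs <;> omega
  constructor
  · rintro ⟨U, h1, h2, h3⟩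
    let b : ℕ → Bool := fun i => if i < y.1 then decide (i ∈ U) else decide ((ed y (i - y.1)).2 ∉ U)
    refine ⟨b, fun t => ?_⟩
    by_cases ht : t = 2 * a y y.1 + 2
    · rw [ht, (top b).1, (top b).2]
      refine h2.trans (card_le_card fun v hv => ?_)
      simp [b, h1 v hv, hv]
    let w : ℕ → ℕ := fun j => if (ed y j).2 ∈ U then (ed y j).1 else (ed y j).2
    rw [sum_range_add, sum_range_add]
    have k1 : ∀ i ∈ range y.1, I t (R y i) + I t (S y i) ≤
        if b i then I t (X y i + 1) + I t (Y y i) else I t (X y i) + I t (Z y i) := fun i hi => by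
      rw [mem_range] at hi
      simp only [R, S, X, Y, Z, I, hi, if_true]
      split_ifs <;> omega
    have k2 : ∀ j, I t (R y (y.1 + j)) + I t (S y (y.1 + j)) ≤
        (if b (y.1 + j) then I t (X y (y.1 + j) + 1) + I t (Y y (y.1 + j))
          else I t (X y (y.1 + j)) + I t (Z y (y.1 + j))) +
          if t = 2 * (a y (w j) + j + 1) + 1 then 1 else 0 := fun j => by
      simp only [R, S, X, Y, Z, I, b, w, Nat.add_sub_cancel_left, show ¬ y.1 + j < y.1 by omega,
        if_false, false_and, decide_eq_true_eq, ite_not]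
      split_ifs <;> omega
    by_cases c : ∃ j < y.2.1.length, t = 2 * (a y (w j) + j + 1) + 1
    · obtain ⟨j, hj, e⟩ := c
      have w1 : w j < y.1 ∧ w j ∉ U := by
        have := hy.2 _ (ed_mem y j hj)
        have := h3 _ (ed_mem y j hj)
        simp only [w]
        split_ifs with k
        exacts [⟨by omega, fun c => this ⟨c, k⟩⟩, ⟨by omega, k⟩]
      have s1 := sum_lt_sum k1 ⟨w j, mem_range.2 w1.1, by
        have := a_lt y (w j) y.1
        simp only [R, S, X, Y, Z, I, b, w1.1, w1.2, if_true, decide_false, Bool.false_eq_true,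
          if_false]
        split_ifs <;> omega⟩
      have s2 := sum_le_sum fun i (hi : i ∈ range y.2.1.length) => (k2 i).trans
        (Nat.add_le_add_left (m := if i = j then 1 else 0) (by
          rw [mem_range] at hi
          have := a_lt y (w i) (w j)
          split_ifs <;> omega) _)
      rw [sum_add_distrib (g := fun i => if i = j then 1 else 0), sum_ite_eq',
        if_pos (mem_range.2 hj)] at s2
      omega
    · refine Nat.add_le_add (sum_le_sum k1) (sum_le_sum fun j hj => ?_)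
      have := k2 j
      rwa [if_neg fun e => c ⟨j, mem_range.1 hj, e⟩, add_zero] at this
  · rintro ⟨b, h⟩
    refine ⟨(range y.1).filter fun i => b i = true, fun v hv => mem_range.1 (mem_filter.1 hv).1,
      by simpa only [(top b).1, (top b).2] using h (2 * a y y.1 + 2), fun e he' c => ?_⟩
    obtain ⟨j, hj, rfl⟩ := List.getElem_of_mem he'
    rw [← List.getD_eq_getElem _ (0, 0) hj] at c
    change (ed y j).1 ∈ _ ∧ (ed y j).2 ∈ _ at c
    simp only [mem_filter, mem_range] at c
    obtain ⟨w, w1, w2, w3⟩ : ∃ w, w < y.1 ∧ b w = true ∧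
        w = if b (y.1 + j) then (ed y j).2 else (ed y j).1 :=
      ⟨_, by split_ifs; exacts [c.2.1, c.1.1], by split_ifs; exacts [c.2.2, c.1.2], rfl⟩
    refine (h (2 * (a y w + j + 1) + 1)).not_gt (sum_lt_sum (fun i hi => ?_)
      ⟨y.1 + j, mem_range.2 (by omega), ?_⟩)
    · have := a_lt y w y.1
      have := a_lt y w i
      have : i = w → b i = true := fun e => e ▸ w2
      clear w3
      cases e : b i <;> simp only [R, S, X, Y, Z, I, e, Bool.false_eq_true, imp_false, if_true,
        if_false] at this ⊢ <;> split_ifs <;> omega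
    · simp only [R, S, X, Y, Z, I, Nat.add_sub_cancel_left, show ¬ y.1 + j < y.1 by omega,
        if_false, false_and]
      cases e : b (y.1 + j) <;> simp only [e, if_true, Bool.false_eq_true, if_false] at w3 ⊢ <;>
        rw [← w3] <;> split_ifs <;> omega

theorem hard : HardFor InNP (fun y : Inst => P5.Free (gr y.1.1 y.1.2) ∧ P5.Free (gr y.2.1 y.2.2))
    fun y => (gr y.2.1 y.2.2).IsContained (gr y.1.1 y.1.2) := by
  refine hard_IS.red red (by unfold red Pool.Agent.H25.SI.mk A dG dH sel R S Z X Y ed a; fun_prop) fun y hy =>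
    ⟨⟨free5 _ _ _ (.inl rfl) _, free5 _ _ _ (.inr rfl) _⟩, ?_⟩
  have he : ∀ i < y.1 + y.2.1.length, (i < y.1 ∧ a y i + y.2.1.length + 1 ≤ a y y.1) ∨
      (¬ i < y.1 ∧ a y (ed y (i - y.1)).1 + y.2.1.length + 1 ≤ a y y.1 ∧
      a y (ed y (i - y.1)).2 + y.2.1.length + 1 ≤ a y y.1) := fun i hi => by
    have := a_lt y i y.1
    have := a_lt y (ed y (i - y.1)).1 y.1
    have := a_lt y (ed y (i - y.1)).2 y.1
    have := fun h => hy.2 _ (ed_mem y (i - y.1) h)
    omega
  have d : ∀ i, 4 * i / 4 = i ∧ (4 * i + 1) / 4 = i ∧ (4 * i + 2) / 4 = i ∧ (4 * i + 3) / 4 = i :=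
    fun i => by omega
  rw [core y hy, cont_iff, red, mk_iff, pairs _ (X y) (Y y) (Z y) (R y) (S y)]
  · exact fun i => by simp only [dG, d i, sel4, and_self]
  · exact fun i => by simp only [dH, d i, sel4, and_self]
  · intro i _
    simp only [Y, Z]
    split_ifs <;> omega
  · intro i hi c hc b hb h1 h2
    have := he i hi
    have := he (c / 4) (by omega)
    have := a_lt y i (c / 4)
    simp only [dG, sel, X, Y, Z, show b / 4 = c / 4 by omega]
    split_ifs <;> omega
  · intro c hc
    have := he (c / 4) (by omega)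
    simp only [dH, sel, X, Y, R, S]
    split_ifs <;> omega

theorem result : NPComplete (SI P5) ∧ NPComplete (SI TwoP5) := by
  have s : P5.IsContained TwoP5 := (cont_iff (5, _) (10, _)).2 
    ⟨_, (emB_iff _ _ [0, 1, 2, 3, 4]).1 (by decide)⟩
  exact ⟨⟨inNP (5, _), hard.npHard⟩, inNP (10, _), (hard.red id PT.id fun y h =>
    ⟨⟨fun c => h.1 (s.trans c), fun c => h.2 (s.trans c)⟩, Iff.rfl⟩).npHard⟩

end Pool.Agent.Results.MP_143e72_lc.NPC
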